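import Pool.Agent.Q274.BKL.Cv
import Pool.Agent.Q274.BKC.Tw

/-!
# The Bloch–Kato conjecture for Hecke characters of infinitely many weights at once

Let `F = ℚ(√-7)` (written `K` below), let `E = X_0(49) : y² + x y = x³ - x² - 2 x - 1`, with complex
multiplication by the integers of `F`, let `ψ` be its Hecke character and `ψ_D` the twist of `ψ` by the quadratic
character of `D`. For `i ≥ 0` even and a positive squarefree `D ≡ 1 mod 8`, prime to `7`, let
`π = ψ_D^(2i+1) |·|^(i+1)`, a regular algebraic automorphic representation of `GL_1` over `F` with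
`π^∨ = π^c |·|^(-1)`. Its `L`-function is `L(s, π) = L(ψ_D^(2i+1), s + i + 1)`.

**The L-function.** Let `a_p = p - #{(x, y) mod p : y² + x y = x³ - x² - 2 x - 1}` and `X² - a_p X + p =
(X - α) (X - α')`. The product of the Euler factors of `π` at the primes of `F` above `p` is, for all the primes
`p ≠ 7` not dividing `D` (also `p = 2`),
`1 - χ(p) (α^(2i+1) + α'^(2i+1)) p^(-s-i-1) + p^(2i+1) p^(-2s-2i-2)`, where `χ(p)` is the symbol `(p / D)`; it
is `1` for `p = 7` and for `p` dividing `D`. The centre is `s = 0`.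

**The Galois side.** `s ∈ K`, `s² = -7`; `v` is the prime of `K` above `2` at which `s` is `3` modulo `4`, `v'`
the prime at which `s` is `1` modulo `4`, and `t` is the image of `s` in `K_v = ℚ_2`. The `2`-adic realizations of
`π` (for the isomorphisms `ι : ℂ → ℚ̄_2`) are the character `χ : G_K → ℤ_2^*` such that a Frobenius element at a
prime `w = (A + B s)`, `w ∤ 14 D`, satisfies `χ(Frob) = (A / 7) (D / N(w)) (A + B t)^(i+1) / (A - B t)^i`, and the
conjugate of `χ`, which is the same character for `-s` instead of `s`. `χ` has the Hodge–Tate weight `i + 1` at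
`v` and `-i` at `v'`. The theorem is about all the continuous characters `χ` with this property (`HasWeight`; `χ`
exists by the theory of complex multiplication, which is not used here, and is unique by Chebotarev's theorem).
The group `H¹_f(K, ℚ_2(χ))` of Bloch and Kato consists of the classes of the continuous cocycles which are
coboundaries on the inertia groups of all primes not above `2` and on the decomposition groups of the primes
above `v'`, with no condition at `v` (the Hodge–Tate weight `i + 1` is positive at `v` and `-i ≤ 0` at `v'`, so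
that the local groups `H¹_f` are everything at `v` and zero at `v'`).

**The matrix.** Let all prime factors of `D` be `1` modulo `4`, `D ≡ 1` modulo `8`. `R(D)` is the following
symmetric matrix over `𝔽₂`, with rows and columns indexed by the prime factors `p` of `D` which split in `K`: the
entry at `(p, p')` is `0` if `p'` is a square modulo `p` and `1` otherwise; the diagonal entry at `p` is the sum
of the symbols of all the other prime factors of `D` modulo `p` and of the symbol which is `0` if `-7` is a fourth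
power modulo `p` and `1` otherwise. The matrix does not depend on the weight.

**Theorem.** (1) If `R(D)` is nonsingular, then for ALL even `i ≥ 0`: `L(s, π)` is entire, and the formula
`ord_{s=0} L(s, π) = dim H¹_f(F, ρ_{π,ι})` holds for `p = 2`, with both sides `0`.
(2) Let `m_1, …, m_M` be different positive squarefree integers `≡ 1` modulo `8` whose prime factors are `1`
modulo `8` or inert in `K` and `5` modulo `8`. For exactly the proportion `κ^M`, `κ = (1 - 1/2) (1 - 1/8)
(1 - 1/32) ⋯ = 0.4194…`, of the squarefree `D` with all prime factors `1` modulo `8`, all the matrices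
`R(m_1 D), …, R(m_M D)` (products modulo squares) are nonsingular; so for these `D` the formula of (1) holds for
all the `M` twists and for all even weights `i` at once.

The proof: for `i = 0` the algebraic part of the central value is a sum of the values of the zeta function at
points of odd order. For even `i ≥ 2` the numbers of Eisenstein and Kronecker `i! e*_{i,i+1}(z)` at the points of
odd order are congruent modulo `4` to a `2`-stabilization of the numbers of weight zero, by the Lamé equations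
for the function of Kronecker in both variables and the integrality of its Laurent series at the origin in the
parameter of the formal group; the recursion over the divisors of `D` then gives that the `2`-adic valuation of
the algebraic part of `L(0, π)` is the least possible one exactly if `R(D)` is nonsingular, for all the
weights at once. The Selmer groups are bounded by a descent for all the weights at once.
-/

set_option autoImplicit false
set_option linter.all false

namespace Pool.Agent.Results.MP_7c08ba_nt.AllEvenWeights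

open NumberField IsDedekindDomain Filter
open scoped Classical Topology

/-- The absolute Galois group of `K`, with the Krull topology. -/
abbrev G (K : Type) [Field K] : Type := Gal(AlgebraicClosure K/K)

/-- The ring of all the algebraic integers in the algebraic closure of `K`. -/
abbrev Zbar (K : Type) [Field K] : Type := 𝓞 (AlgebraicClosure K)

section
variable {K : Type} [Field K]

/-- The decomposition group of the maximal ideal `Q`. -/
def decomposition (Q : Ideal (Zbar K)) : Set (G K) := {σ | ∀ x : Zbar K, σ • x ∈ Q ↔ x ∈ Q}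

/-- The inertia group of the maximal ideal `Q`. -/
def inertia (Q : Ideal (Zbar K)) : Set (G K) := {σ | ∀ x : Zbar K, σ • x - x ∈ Q}

/-- The value of the character `χ` in `ℚ_2`. -/
noncomputable def value (χ : G K →* ℤ_[2]ˣ) (σ : G K) : ℚ_[2] := ((χ σ : ℤ_[2]) : ℚ_[2])

/-- The restriction of `c` to `H` is a coboundary with values in `ℚ_2(χ)`. -/
def CoboundaryOn (χ : G K →* ℤ_[2]ˣ) (c : G K → ℚ_[2]) (H : Set (G K)) : Prop :=
  ∃ y : ℚ_[2], ∀ σ ∈ H, c σ = (value χ σ - 1) * y

/-- `Q` is above the prime `v'` of `K` above `2` at which `s` is `1` modulo `4`: `Q` contains `2` and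
`(1 - s) / 2`. -/
def AboveConj (s : K) (Q : Ideal (Zbar K)) : Prop := (2 : Zbar K) ∈ Q ∧
  ∃ z : Zbar K, z ∈ Q ∧ 2 * (z : AlgebraicClosure K) = 1 - algebraMap K (AlgebraicClosure K) s

/-- The continuous cocycles with values in `ℚ_2(χ)` which satisfy the conditions of Bloch and Kato: they
are coboundaries on the inertia groups outside `2` and on the decomposition groups above `v'`. -/
def IsSelmer (s : K) (χ : G K →* ℤ_[2]ˣ) (c : G K → ℚ_[2]) : Prop :=
  Continuous c ∧ (∀ σ τ, c (σ * τ) = c σ + value χ σ * c τ) ∧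
  (∀ Q : Ideal (Zbar K), Q.IsMaximal → (2 : Zbar K) ∉ Q → CoboundaryOn χ c (inertia Q)) ∧
  (∀ Q : Ideal (Zbar K), Q.IsMaximal → AboveConj s Q → CoboundaryOn χ c (decomposition Q))

/-- The space of these cocycles. -/
def selmer (s : K) (χ : G K →* ℤ_[2]ˣ) : Submodule ℚ_[2] (G K → ℚ_[2]) where
  carrier := {c | IsSelmer s χ c}
  add_mem' := by
    rintro a b ⟨ha1, ha2, ha3, ha4⟩ ⟨hb1, hb2, hb3, hb4⟩
    refine ⟨ha1.add hb1, fun σ τ => ?_, fun Q h1 h2 => ?_, fun Q h1 h2 => ?_⟩
    · simp only [Pi.add_apply, ha2, hb2]; ring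
    · obtain ⟨y, hy⟩ := ha3 Q h1 h2
      obtain ⟨z, hz⟩ := hb3 Q h1 h2
      exact ⟨y + z, fun σ hσ => by rw [Pi.add_apply, hy σ hσ, hz σ hσ]; ring⟩
    · obtain ⟨y, hy⟩ := ha4 Q h1 h2
      obtain ⟨z, hz⟩ := hb4 Q h1 h2
      exact ⟨y + z, fun σ hσ => by rw [Pi.add_apply, hy σ hσ, hz σ hσ]; ring⟩
  zero_mem' := by
    refine ⟨continuous_const, fun σ τ => by simp, fun Q _ _ => ⟨0, fun σ _ => by simp⟩,
      fun Q _ _ => ⟨0, fun σ _ => by simp⟩⟩
  smul_mem' := by
    rintro k a ⟨ha1, ha2, ha3, ha4⟩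
    refine ⟨ha1.const_smul k, fun σ τ => ?_, fun Q h1 h2 => ?_, fun Q h1 h2 => ?_⟩
    · simp only [Pi.smul_apply, ha2, smul_eq_mul]; ring
    · obtain ⟨y, hy⟩ := ha3 Q h1 h2
      exact ⟨k * y, fun σ hσ => by rw [Pi.smul_apply, hy σ hσ, smul_eq_mul]; ring⟩
    · obtain ⟨y, hy⟩ := ha4 Q h1 h2
      exact ⟨k * y, fun σ hσ => by rw [Pi.smul_apply, hy σ hσ, smul_eq_mul]; ring⟩

/-- The space of the coboundaries `σ ↦ (χ(σ) - 1) y` (they are in `selmer s χ`). -/
noncomputable def coboundaries (χ : G K →* ℤ_[2]ˣ) : Submodule ℚ_[2] (G K → ℚ_[2]) :=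
  Submodule.span ℚ_[2] {fun σ => value χ σ - 1}

/-- The Bloch–Kato Selmer group `H¹_f(K, ℚ_2(χ))`: the cocycles modulo the coboundaries. -/
abbrev H1f (s : K) (χ : G K →* ℤ_[2]ˣ) : Type :=
  selmer s χ ⧸ (coboundaries χ).comap (selmer s χ).subtype

end

/-- `σ` is a Frobenius element at the prime `w` of `K`: `σ x ≡ x ^ N(w)` modulo some maximal ideal above
`w` of the ring of all algebraic integers. -/
def IsFrobenius {K : Type} [Field K] [NumberField K] (w : HeightOneSpectrum (𝓞 K)) (σ : G K) : Prop :=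
  ∃ Q : Ideal (Zbar K), Q.IsMaximal ∧ Q.comap (algebraMap (𝓞 K) (Zbar K)) = w.asIdeal ∧
    ∀ x : Zbar K, σ • x - x ^ Ideal.absNorm w.asIdeal ∈ Q

/-- `χ` is the 2-adic character of `ψ^(i+1) ψ'^(-i)` twisted by the quadratic character of `D` (`i` even);
`t` is the image of `s` at `v`. For the primes `w` not dividing `14 D` and for odd `n`, `w^n = (A + B s)`:
`χ(Frob_w)^n (A - B t)^i = (A / 7) (D / (A² + 7 B²)) (A + B t)^(i+1)`. (The case `n = 1` suffices, since `w` is
principal.) -/
def HasWeight {K : Type} [Field K] [NumberField K] (D i : ℕ) (s : K) (t : ℤ_[2])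
    (χ : G K →* ℤ_[2]ˣ) : Prop :=
  ∀ (w : HeightOneSpectrum (𝓞 K)) (σ : G K) (n : ℕ) (A B : ℤ) (β : 𝓞 K),
    ((14 * D : ℕ) : 𝓞 K) ∉ w.asIdeal → IsFrobenius w σ → Odd n →
    w.asIdeal ^ n = Ideal.span {β} → (β : K) = A + B * s →
    ((χ σ : ℤ_[2]) ^ n) * ((A : ℤ_[2]) - B * t) ^ i =
      ((jacobiSym A 7 * jacobiSym D (A ^ 2 + 7 * B ^ 2).natAbs : ℤ) : ℤ_[2]) *
        ((A : ℤ_[2]) + B * t) ^ (i + 1)

/-- `a_p = p - #{(x, y) mod p : y² + x y = x³ - x² - 2 x - 1}`. -/
noncomputable def a (p : ℕ) : ℤ := p - Nat.card {x : ZMod p × ZMod p //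
  x.2 ^ 2 + x.1 * x.2 = x.1 ^ 3 - x.1 ^ 2 - 2 * x.1 - 1}

/-- `α^n + α'^n`, for `X² - a_p X + p = (X - α) (X - α')`. -/
noncomputable def powerSum (p : ℕ) : ℕ → ℤ
  | 0 => 2
  | 1 => a p
  | n + 2 => a p * powerSum p (n + 1) - p * powerSum p n

/-- The product of the Euler factors of `π` at the primes of `F` above `p`, all `p`. -/
noncomputable def eulerFactor (D i : ℕ) (s : ℂ) (p : ℕ) : ℂ :=
  1 - (jacobiSym p D * powerSum p (2 * i + 1) : ℤ) * (p : ℂ) ^ (-(s + i + 1)) +
    (if p = 7 then 0 else 1) * ((jacobiSym p D ^ 2 * p ^ (2 * i + 1) : ℤ) : ℂ) *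
      ((p : ℂ) ^ (-(s + i + 1))) ^ 2

/-- `F` is the `L`-function `L(s, π)`: an entire function which is the product of the inverses of all the
Euler factors for `Re s > 1/2`. -/
def IsLFunction (D i : ℕ) (F : ℂ → ℂ) : Prop := Differentiable ℂ F ∧
  ∀ s : ℂ, 1 / 2 < s.re → HasProd (fun p : Nat.Primes => (eulerFactor D i s p)⁻¹) (F s)

/-- The formula for `π = ψ_D^(2i+1) |·|^(i+1)` and `p = 2`, with both sides zero: the `L`-function is entire,
its order at the centre `s = 0` is zero, and `H¹_f(K, ℚ_2(χ)) = 0`. -/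
def Formula (D i : ℕ) : Prop := ∃ F : ℂ → ℂ, IsLFunction D i F ∧ analyticOrderAt F 0 = 0 ∧
  ∀ (K : Type) [Field K] [NumberField K] (s : K) (t : ℤ_[2]) (χ : G K →* ℤ_[2]ˣ),
    Module.finrank ℚ K = 2 → s ^ 2 = -7 → t ^ 2 = -7 → (4 : ℤ_[2]) ∣ t - 3 → Continuous χ →
    HasWeight D i s t χ → Module.rank ℚ_[2] (H1f s χ) = 0

/-- The class of the `D`: squarefree, all prime factors `1` modulo `4`, `D ≡ 1` modulo `8`. -/
def Class (D : ℕ) : Prop := Squarefree D ∧ (∀ p : ℕ, p.Prime → p ∣ D → p % 4 = 1) ∧ D % 8 = 1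

/-- The prime factors of `D` which split in `ℚ(√-7)`. -/
noncomputable def splitPrimes (D : ℕ) : Finset ℕ :=
  D.primeFactors.filter fun p => IsSquare (-7 : ZMod p)

/-- `0` if `a` is a square modulo `p` and `1` otherwise. -/
noncomputable def nonsquare (p a : ℕ) : ZMod 2 := if IsSquare (a : ZMod p) then 0 else 1

/-- `0` if `-7` is a fourth power modulo `p` and `1` otherwise. -/
noncomputable def nonfourth (p : ℕ) : ZMod 2 := if ∃ y : ZMod p, y ^ 4 = -7 then 0 else 1

/-- The matrix `R(D)`. -/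
noncomputable def R (D : ℕ) : Matrix (splitPrimes D) (splitPrimes D) (ZMod 2) :=
  Matrix.of fun i j => if i = j then ∑ r ∈ D.primeFactors.erase i, nonsquare i r + nonfourth i
    else nonsquare i j

/-- The squarefree integers with all prime factors `1` modulo `8`. -/
def Class8 (D : ℕ) : Prop := Squarefree D ∧ ∀ p : ℕ, p.Prime → p ∣ D → p % 8 = 1

/-- The factors `m_j`: in the class, all prime factors `1` mod `8` or inert in `ℚ(√-7)` and `5` mod `8`. -/
def Factor (m : ℕ) : Prop := Class m ∧
  ∀ p : ℕ, p.Prime → p ∣ m → p % 8 = 1 ∨ (p % 8 = 5 ∧ ¬ IsSquare (-7 : ZMod p))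

/-- The squarefree part of `m D`, for squarefree `m` and `D`. -/
def times (m D : ℕ) : ℕ := m * D / Nat.gcd m D ^ 2

/-- The proportion of the `D ≤ X` with property `T` among those with all prime factors `1` mod `8`. -/
noncomputable def proportion (T : ℕ → Prop) (X : ℕ) : ℝ :=
  (((Finset.Icc 1 X).filter fun D => Class8 D ∧ T D).card : ℝ) /
    (((Finset.Icc 1 X).filter fun D => Class8 D).card : ℝ)

/-- The number `κ = (1 - 1/2) (1 - 1/8) (1 - 1/32) ⋯`. -/
noncomputable def κ : ℝ := ∏' i : ℕ, (1 - (1 / 2 : ℝ) ^ (2 * i + 1))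

/-- (1) The formula for all even weights. -/
def AllEvenWeights : Prop := ∀ D : ℕ, Class D → (R D).det ≠ 0 → ∀ i : ℕ, Even i → Formula D i

/-- (2) The proportion. -/
def JointProportion : Prop :=
  ∀ (M : ℕ) (m : Fin M → ℕ), Function.Injective m → (∀ j, Factor (m j)) →
    (∀ D, Class8 D → ∀ j, Class (times (m j) D)) ∧
    Tendsto (proportion fun D => ∀ j, (R (times (m j) D)).det ≠ 0) atTop (𝓝 (κ ^ M))

section proof

open Pool.Agent.Q274.BKC

lemma sel_iff {K : Type} [Field K] (s : K) (χ : G K →* ℤ_[2]ˣ) (c : G K → ℚ_[2]) :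
    IsSelmer s χ c ↔ IsSel s χ c :=
  ⟨fun h => ⟨h.1, h.2.1, h.2.2.1, h.2.2.2⟩, fun h => ⟨h.cont, h.coc, h.ine, h.dec⟩⟩

lemma sel_eq {K : Type} [Field K] (s : K) (χ : G K →* ℤ_[2]ˣ) : selmer s χ = Sel s χ :=
  Submodule.ext fun c => sel_iff s χ c

/-- the dimension of the quotient by the coboundaries -/
lemma rank_eq {K : Type} [Field K] (s : K) (χ : G K →* ℤ_[2]ˣ) :
    Module.rank ℚ_[2] (H1f s χ) = Module.rank ℚ_[2] (Pool.Agent.Q274.BKC.H1f s χ) := by
  have key : ∀ W W' : Submodule ℚ_[2] (G K → ℚ_[2]), W = W' →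
      Module.rank ℚ_[2] (W ⧸ (coboundaries χ).comap W.subtype) =
      Module.rank ℚ_[2] (W' ⧸ (B1 χ).comap W'.subtype) := by
    rintro W _ rfl
    rfl
  exact key _ _ (sel_eq s χ)

lemma cl_iff (D : ℕ) : Class D ↔ Cl 7 D := by
  constructor
  · rintro ⟨h1, h2, h3⟩
    exact ⟨h1, fun p hp hd => ⟨h2 p hp hd, by have := h2 p hp hd; omega⟩, by omega⟩
  · rintro ⟨h1, h2, h3⟩
    exact ⟨h1, fun p hp hd => (h2 p hp hd).1, by omega⟩

lemma cl8_iff (D : ℕ) : Class8 D ↔ Cl8 7 D := by
  constructor
  · rintro ⟨h1, h2⟩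
    exact ⟨h1, fun p hp hd => ⟨h2 p hp hd, by have := h2 p hp hd; omega⟩⟩
  · rintro ⟨h1, h2⟩
    exact ⟨h1, fun p hp hd => (h2 p hp hd).1⟩

lemma fac_iff {m : ℕ} (h : Factor m) : Clm 7 m ∧ (16 : ℤ) ∣ 2 * m + 5 - (7 : ℕ) := by
  have hc := (cl_iff m).1 h.1
  exact ⟨⟨h.1.1, fun p hp hm => ⟨by simpa using h.2 p hp hm, (hc.one p hp hm).2⟩⟩, hc.cong⟩

lemma sp_eq (D : ℕ) : splitPrimes D = SP 7 D := by
  unfold splitPrimes SP
  simp

lemma det_iff (D : ℕ) : (R D).det ≠ 0 ↔ corank 7 D = 0 := by
  have h1 : (Pool.Agent.Q274.BKC.R 7 D).det ≠ 0 ↔ corank 7 D = 0 := by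
    unfold corank
    rw [Submodule.finrank_eq_zero, Matrix.ker_mulVecLin_eq_bot_iff]
    constructor
    · intro h v hv
      by_contra h0
      exact h (Matrix.exists_mulVec_eq_zero_iff.1 ⟨v, h0, hv⟩)
    · intro h h0
      obtain ⟨v, hv, hv0⟩ := Matrix.exists_mulVec_eq_zero_iff.2 h0
      exact hv (h v hv0)
  rw [← h1]
  have h2 : (R D).det = (Pool.Agent.Q274.BKC.R 7 D).det := by
    have key : ∀ (S : Finset ℕ) (h : S = SP 7 D),
        (Matrix.of fun i j : S => if i = j then ∑ r ∈ D.primeFactors.erase (i : ℕ),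
          nonsquare i r + nonfourth i else nonsquare i j).det =
        (Pool.Agent.Q274.BKC.R 7 D).det := by
      rintro S rfl
      congr 1
    exact key _ (sp_eq D)
  rw [h2]

lemma weight_iff {K : Type} [Field K] [NumberField K] {D i : ℕ} (hi : Even i) {s : K} {t : ℤ_[2]}
    {χ : G K →* ℤ_[2]ˣ} (h : HasWeight D i s t χ) : IsWeight 7 D i s t χ := by
  intro w σ n A B β h1 h2 h3 h4 h5
  have h6 := h w σ n A B β (by simpa using h1) h2 h3 h4 h5
  rw [hi.neg_one_pow, one_mul]
  exact_mod_cast h6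

end proof

theorem result : AllEvenWeights ∧ JointProportion ∧ 0.4194 < κ ∧ κ < 0.4195 := by
  refine ⟨?_, ?_, Pool.Agent.Q274.BKC.kappa_bounds.1, Pool.Agent.Q274.BKC.kappa_bounds.2⟩
  · intro D hD hR i hi
    have hD' := (cl_iff D).1 hD
    have h0 := (det_iff D).1 hR
    obtain ⟨F, g1, g2, g3⟩ := Pool.Agent.Q274.BKL.central_ep hD' h0 hi
    refine ⟨F, ⟨g1, fun s hs => ?_⟩, ?_, ?_⟩
    · have e : ∀ p : ℕ, powerSum p = Pool.Agent.Q274.BKL.uu p := by
        intro p
        funext n
        induction n using Nat.twoStepInduction with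
        | zero => rfl
        | one => rfl
        | more n h1 h2 =>
          rw [powerSum, Pool.Agent.Q274.BKL.uu, h1, h2]
          rfl
      have h1 := g2 s hs
      unfold Pool.Agent.Q274.BKL.ef at h1
      unfold eulerFactor
      simp only [e]
      exact h1
    · rw [AnalyticAt.analyticOrderAt_eq_zero (g1.analyticAt 0)]
      exact g3
    · intro K _ _ s t χ hK hs ht ht4 hc hχ
      have hw := weight_iff hi hχ
      have hs' : s ^ 2 = -((7 : ℕ) : K) := by push_cast; exact hs
      have ht' : t ^ 2 = -((7 : ℕ) : ℤ_[2]) := by push_cast; exact ht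
      have h := Pool.Agent.Q274.BKC.main K 7 D i s t χ (by norm_num) rfl hD' hs' hK ht' ht4 hc hw
      rw [← rank_eq, h0] at h
      simpa using h
  · intro M m hm hf
    refine ⟨fun D hD j => ?_, ?_⟩
    · obtain ⟨h1, h2⟩ := fac_iff (hf j)
      exact (cl_iff _).2 (Pool.Agent.Q274.BKC.tw_Cl h1 h2 ((cl8_iff D).1 hD))
    · have h := Pool.Agent.Q274.BKC.t_LAW 7 (by norm_num) rfl M m (fun _ => 0) hm
        fun j => (fac_iff (hf j)).1
      rw [Pool.Agent.Q274.BKC.cR_eq] at h
      have e : (∏ j : Fin M, ((∏' i : ℕ, (1 - (1 / 2 : ℝ) ^ (2 * i + 1))) /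
          ∏ i ∈ Finset.range 0, ((2 : ℝ) ^ (i + 1) - 1))) = κ ^ M := by
        simp [κ]
      rw [e] at h
      refine h.congr fun X => ?_
      unfold proportion
      simp only [det_iff, cl8_iff]
      congr! 4

end Pool.Agent.Results.MP_7c08ba_nt.AllEvenWeights
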