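import Pool.Agent.Q138.PS.UA
import Pool.Agent.Q274.XF.Form

/-!
# The Bloch–Kato formula over imaginary quadratic fields along the integers `± ⌊β P(n)⌋`

`E_D : y² = x³ + 5805 D² x - 285714 D³` is the twist by `D` of the non-CM curve `E_1 = X_0(14)`; `Adm` is the class
of the squarefree `D = 1 mod 4` of any sign which are squares modulo `7`, prime to `3`, and all prime factors of which
split completely in `ℚ(i, √2, √-7)` or are inert in `ℚ(√2)` and in `ℚ(√-7)`. `Formula F M d` is the formula of the problem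
for the base change to `F = ℚ(√-d)` of the newform of `E_M` and `p = 2`, with both sides zero.

Let `q ≥ 2`. Outside a set of real numbers of Hausdorff dimension at most `q / (q + 1 / (q 2 ^ (q - 1)))` (that is
`8 / 9` for `q = 2`) every `β > 0` has the following property, for ALL integral polynomials `P` of degree `q` with positive
leading coefficient and coefficients of size at most `N ^ η`. For each fixed field `F = ℚ(√-d)` and `M` of the class, and
for both signs, at least `N ^ (1 - ε)` of the `D = ± ⌊β P(n)⌋`, `n ≤ N`, are in the class, and the formula holds for at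
least the proportion `c² = 0.175…` of the twists by these `D`. For each fixed good `M` the formula holds for `E_M` over at
least the proportion `c = 0.419…` of the fields `ℚ(√-d)` with `d = ⌊β P(n)⌋` and `-d` in the class.
-/

set_option autoImplicit false

open Finset NumberField Filter Topology
open Pool.Agent.Q138.PS

namespace Pool.Agent.Results.MP_7c08ba_nt.FormulaRealMultiples

open Pool.Agent.Q274.XF
open Pool.Agent.Y667.BKP (H1f)

/-- `F = ℚ(√-d)`, an imaginary quadratic field if `d > 0`. -/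
def IsField (d : ℕ) (F : Type) [Field F] [NumberField F] : Prop :=
  Module.finrank ℚ F = 2 ∧ ∃ x : F, x ^ 2 = -(d : F)

/-- `z` is, up to squares, in the class and `E_z` has finitely many rational points and `Ш(E_z/ℚ)[2] = 0` -/
def GoodSq (z : ℤ) : Prop := ∃ D k : ℤ, Good D ∧ k ≠ 0 ∧ z = D * k ^ 2

/-- The formula for `π_M` over `F = ℚ(√-d)` and `p = 2`, with both sides zero: `E_M` is an elliptic
curve, its `L`-function (without the Euler factors above `42 M d`) extends to an entire function which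
is not zero at `1`, and `H¹_f(F, V_2 E_M)` is zero. -/
def Formula (F : Type) [Field F] [NumberField F] (M : ℤ) (d : ℕ) : Prop :=
  (EK F M).IsElliptic ∧ (∃ L : ℂ → ℂ, IsL F M (-d) L) ∧ (∀ L : ℂ → ℂ, IsL F M (-d) L → L 1 ≠ 0) ∧
    ∀ x : H1f 2 (EK F M), x = 0

open Classical in
/-- the number of the `n ≤ N` for which `D = s ⌊β P(n)⌋` belongs to the class and has the property `Q` -/
noncomputable def count (s : ℤ) (β : ℝ) (P : Polynomial ℤ) (N : ℕ) (Q : ℤ → Prop) : ℕ :=
  ((Icc 1 N).filter fun n : ℕ => Adm (s * (⌊β * ((P.eval (n : ℤ) : ℤ) : ℝ)⌋₊ : ℤ)) ∧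
    Q (s * (⌊β * ((P.eval (n : ℤ) : ℤ) : ℝ)⌋₊ : ℤ))).card

lemma multi {d : ℕ} (hd : 0 < d) {F : Type} [Field F] [NumberField F] (h : IsField d F) :
    IsMultiquadratic (fun _ : Fin 1 => (-d : ℤ)) F := by
  obtain ⟨h1, x, hx⟩ := h
  refine ⟨fun _ => x, fun _ => by rw [hx]; push_cast; ring, ?_⟩
  have hmem : x ∈ IntermediateField.adjoin ℚ (Set.range fun _ : Fin 1 => x) :=
    IntermediateField.subset_adjoin _ _ ⟨0, rfl⟩
  set L := IntermediateField.adjoin ℚ (Set.range fun _ : Fin 1 => x) with hL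
  have hne : Module.finrank ℚ L ≠ 1 := by
    intro h2
    rw [IntermediateField.finrank_eq_one_iff] at h2
    rw [h2, IntermediateField.mem_bot] at hmem
    obtain ⟨q, hq⟩ := hmem
    have h3 : algebraMap ℚ F (q ^ 2) = algebraMap ℚ F (-(d : ℚ)) := by
      rw [map_pow, hq, hx]
      simp
    have h4 := (algebraMap ℚ F).injective h3
    have h5 : (0 : ℚ) ≤ q ^ 2 := sq_nonneg q
    have h6 : (0 : ℚ) < d := by exact_mod_cast hd
    linarith
  have hmul := Module.finrank_mul_finrank ℚ L F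
  rw [h1] at hmul
  have hdvd : Module.finrank ℚ L ∣ 2 := ⟨_, hmul.symm⟩
  have h2 : Module.finrank ℚ L = 2 := by
    rcases (Nat.dvd_prime Nat.prime_two).1 hdvd with h | h
    · exact absurd h hne
    · exact h
  rw [h2] at hmul
  have h3 : Module.finrank L F = 1 := by omega
  exact IntermediateField.finrank_eq_one_iff_eq_top.1 h3

lemma fin1 (T : Finset (Fin 1)) : T = ∅ ∨ T = {0} := by
  revert T
  decide

lemma formula_of {M : ℤ} {d : ℕ} (hd : 0 < d) (h : GoodPair M (fun _ : Fin 1 => (-d : ℤ)))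
    {F : Type} [Field F] [NumberField F] (hF : IsField d F) : Formula F M d := by
  obtain ⟨-, -, a2, a3, a4, a5⟩ := parts.1 1 M _ h F (multi hd hF)
  rw [Fin.prod_univ_one] at a4 a5
  exact ⟨isElliptic (ne_zero h), a4, a5, Pool.Agent.Y667.BKP.h1f_zero Nat.prime_two a3 1 a2⟩

lemma snoc_eq (z : ℤ) : (Fin.snoc (Fin.elim0 : Fin 0 → ℤ) z : Fin 1 → ℤ) = fun _ => z := by
  funext i
  have h : i = Fin.last 0 := Subsingleton.elim (α := Fin 1) i _
  rw [h, Fin.snoc_last]

lemma pair_zero {M : ℤ} (h : GoodSq M) : GoodPair M (Fin.elim0 : Fin 0 → ℤ) := by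
  refine ⟨fun T hT => ?_, fun T => ?_⟩
  · obtain ⟨i, -⟩ := hT
    exact i.elim0
  · obtain ⟨D, k, a, b, c⟩ := h
    refine ⟨D, k, a, b, ?_⟩
    rw [Subsingleton.elim T ∅, Finset.prod_empty, mul_one, c]

theorem adm_zero : ¬ Adm 0 := fun h => not_squarefree_zero h.1

theorem count_eq (s : ℤ) (hs : s = 1 ∨ s = -1) (β : ℝ) (P : Polynomial ℤ) (N : ℕ) (Q : ℤ → Prop) :
    count s β P N Q = cnS (fun D => 0 < s * D ∧ (Adm D ∧ Q D)) β P N := by
  classical
  rw [cnS_sign s hs (fun D => Adm D ∧ Q D) (fun h => adm_zero h.1)]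
  unfold count
  refine congrArg _ ?_
  ext n
  simp only [mem_filter]

theorem count_mono (s : ℤ) (β : ℝ) (P : Polynomial ℤ) (N : ℕ) (Q R : ℤ → Prop)
    (h : ∀ D, Adm D → Q D → R D) : count s β P N Q ≤ count s β P N R := by
  classical
  unfold count
  refine card_le_card fun n hn => ?_
  rw [mem_filter] at hn ⊢
  exact ⟨hn.1, hn.2.1, h _ hn.2.1 hn.2.2⟩

theorem count_true (s : ℤ) (β : ℝ) (P : Polynomial ℤ) (N : ℕ) (Q : ℤ → Prop) :
    count s β P N Q ≤ count s β P N (fun _ => True) := count_mono s β P N Q _ fun _ _ _ => trivial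

theorem prop_nz (s : ℤ) (hs : s = 1 ∨ s = -1) (R : ℤ → Prop) (y : ℕ) :
    prop s (fun D => R (s * (D : ℤ))) y =
      nz (fun D => 0 < s * D ∧ (Adm D ∧ R D)) y / nz (fun D => 0 < s * D ∧ (Adm D ∧ True)) y := by
  classical
  rw [nz_nat s hs, nz_nat s hs]
  unfold prop
  congr 2
  refine congrArg _ ?_
  ext n
  simp only [mem_filter, and_true]

/-- **Theorem.** Let `q ≥ 2`. There is a set `E` of Hausdorff dimension at most `q / (q + 1 / (q 2 ^ (q - 1)))` such that
every real `β > 0` outside `E` has the following properties. (i) For all `d > 0` and `M` with `-d` and `M` in the class up to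
squares and both signs `s` there is `η > 0` such that for every `ε > 0`, all large `N` and ALL `P ∈ ℤ[x]` of degree `q` with
positive leading coefficient and coefficients of size at most `N ^ η`: at least `N ^ (1 - ε)` of the `D = s ⌊β P(n)⌋`,
`n ≤ N`, are in the class, and for at least the proportion `c² - ε` of these the formula holds for the base change of
`E_{M D}` to `ℚ(√-d)`. (ii) For all `M` which are good up to squares and all `P` as before, the formula holds for the
base change of `E_M` to `ℚ(√D)` for at least the proportion `c - ε` of the `D = - ⌊β P(n)⌋` in the class. -/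
theorem result (q : ℕ) (hq : 2 ≤ q) :
    (0.4194 < c ∧ c < 0.4195) ∧
    ∃ E : Set ℝ, dimH E ≤ ENNReal.ofReal ((q : ℝ) / (q + 1 / (q * 2 ^ (q - 1)))) ∧ ∀ β : ℝ, 0 < β → β ∉ E →
      (∀ (M : ℤ) (d : ℕ), 0 < d → AdmSq (-d) → AdmSq M → ∀ s : ℤ, (s = 1 ∨ s = -1) →
        ∃ η : ℝ, 0 < η ∧ ∀ ε : ℝ, 0 < ε → ∀ᶠ N : ℕ in atTop, ∀ P : Polynomial ℤ, P.natDegree = q →
          0 < P.leadingCoeff → (∀ j, |((P.coeff j : ℤ) : ℝ)| ≤ (N : ℝ) ^ η) →
          (N : ℝ) ^ (1 - ε) ≤ count s β P N (fun _ => True) ∧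
          (c ^ 2 - ε) * count s β P N (fun _ => True) ≤ count s β P N (fun D =>
            ∀ (F : Type) [Field F] [NumberField F], IsField d F → Formula F (M * D) d)) ∧
      (∀ M : ℤ, GoodSq M →
        ∃ η : ℝ, 0 < η ∧ ∀ ε : ℝ, 0 < ε → ∀ᶠ N : ℕ in atTop, ∀ P : Polynomial ℤ, P.natDegree = q →
          0 < P.leadingCoeff → (∀ j, |((P.coeff j : ℤ) : ℝ)| ≤ (N : ℝ) ^ η) →
          (N : ℝ) ^ (1 - ε) ≤ count (-1) β P N (fun _ => True) ∧
          (c - ε) * count (-1) β P N (fun _ => True) ≤ count (-1) β P N (fun D =>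
            ∀ (F : Type) [Field F] [NumberField F], IsField D.natAbs F → Formula F M D.natAbs)) := by
  obtain ⟨-, h2, h3, h4, h5⟩ := parts
  refine ⟨⟨h4, h5⟩, ?_⟩
  obtain ⟨E, hE, hT⟩ := ratio_one_sign (ι := (ℤ × ℕ) ⊕ ℤ) q hq
    (fun i D => Adm D ∧ (match i with
      | Sum.inl z => GoodPair (z.1 * D) (fun _ : Fin 1 => (-(z.2 : ℤ)))
      | Sum.inr M => GoodPair M (Fin.snoc (Fin.elim0 : Fin 0 → ℤ) D : Fin 1 → ℤ))) (fun _ D => Adm D ∧ True)
    (fun i => ⟨fun h => adm_zero h.1, fun h => adm_zero h.1⟩)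
  refine ⟨E, hE, fun β hβ hβE => ?_⟩
  have hbig : ∀ s : ℤ, (s = 1 ∨ s = -1) → ∀ e : ℝ, 0 < e → ∀ᶠ y : ℕ in atTop,
      (y : ℝ) ^ (1 - e) ≤ nz (fun D => 0 < s * D ∧ (Adm D ∧ True)) y := by
    intro s hs e he
    have h := nz_adm_big s hs e he
    have e1 : (fun D : ℤ => 0 < s * D ∧ (Adm D ∧ True)) = fun D => 0 < s * D ∧ Pool.Agent.Y687.MQ.AdmD D := by
      funext D
      rw [and_true]
      rfl
    rw [e1]
    exact h
  refine ⟨fun M d hd had hM s hs => ?_, fun M hM => ?_⟩
  · have hfam : Fam (fun _ : Fin 1 => (-d : ℤ)) := by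
      refine ⟨fun T hT => ?_, fun _ => had⟩
      rcases fin1 T with rfl | rfl
      · exact absurd hT (by simp)
      · rw [Finset.prod_singleton]
        rintro ⟨r, hr⟩
        have : 0 ≤ r * r := mul_self_nonneg r
        omega
    have h6 := h2 1 _ M hfam hM s hs
    rw [pow_one] at h6
    obtain ⟨η, hη, h1⟩ := hT β hβ hβE (Sum.inl (M, d)) s hs
    refine ⟨η, hη, fun ε hε => ?_⟩
    have k1 := h1 (c ^ 2) (hbig s hs) (by
      refine h6.congr fun y => ?_
      exact prop_nz s hs (fun D => GoodPair (M * D) (fun _ : Fin 1 => (-(d : ℤ)))) y) ε hε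
    filter_upwards [k1] with N g1
    intro P hdeg hlead hco
    obtain ⟨j1, j2⟩ := g1 P hdeg hlead hco
    have j1 : |(cnS (fun D => 0 < s * D ∧ (Adm D ∧ GoodPair (M * D) (fun _ : Fin 1 => (-(d : ℤ))))) β P N : ℝ) -
      c ^ 2 * cnS (fun D => 0 < s * D ∧ (Adm D ∧ True)) β P N| ≤ ε * cnS (fun D => 0 < s * D ∧ (Adm D ∧ True)) β P N := j1
    rw [← count_eq s hs, ← count_eq s hs] at j1
    rw [← count_eq s hs] at j2
    refine ⟨j2, ?_⟩
    have j3 := count_mono s β P N (fun D => GoodPair (M * D) (fun _ : Fin 1 => (-(d : ℤ))))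
      (fun D => ∀ (F : Type) [Field F] [NumberField F], IsField d F → Formula F (M * D) d)
      (fun D _ hD F _ _ hF => formula_of hd hD hF)
    have j4 : (count s β P N (fun D => GoodPair (M * D) (fun _ : Fin 1 => (-(d : ℤ)))) : ℝ) ≤
      count s β P N (fun D => ∀ (F : Type) [Field F] [NumberField F], IsField d F → Formula F (M * D) d) := by
      exact_mod_cast j3
    have j5 := (abs_le.1 j1).1
    linarith
  · have h6 := h3 0 M _ (pair_zero hM) (-1) (Or.inr rfl)
    rw [pow_zero, pow_one] at h6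
    obtain ⟨η, hη, h1⟩ := hT β hβ hβE (Sum.inr M) (-1) (Or.inr rfl)
    refine ⟨η, hη, fun ε hε => ?_⟩
    have k1 := h1 c (hbig (-1) (Or.inr rfl)) (by
      refine h6.congr fun y => ?_
      exact prop_nz (-1) (Or.inr rfl) (fun D => GoodPair M (Fin.snoc (Fin.elim0 : Fin 0 → ℤ) D : Fin 1 → ℤ)) y) ε hε
    filter_upwards [k1] with N g1
    intro P hdeg hlead hco
    obtain ⟨j1, j2⟩ := g1 P hdeg hlead hco
    have j1 : |(cnS (fun D => 0 < -1 * D ∧ (Adm D ∧ GoodPair M (Fin.snoc (Fin.elim0 : Fin 0 → ℤ) D : Fin 1 → ℤ))) β P N : ℝ) -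
      c * cnS (fun D => 0 < -1 * D ∧ (Adm D ∧ True)) β P N| ≤ ε * cnS (fun D => 0 < -1 * D ∧ (Adm D ∧ True)) β P N := j1
    rw [← count_eq (-1) (Or.inr rfl), ← count_eq (-1) (Or.inr rfl)] at j1
    rw [← count_eq (-1) (Or.inr rfl)] at j2
    refine ⟨j2, ?_⟩
    have key : ∀ n : ℕ, Adm (-1 * (n : ℤ)) → GoodPair M (Fin.snoc (Fin.elim0 : Fin 0 → ℤ) (-1 * (n : ℤ)) : Fin 1 → ℤ) →
        ∀ (F : Type) [Field F] [NumberField F], IsField (-1 * (n : ℤ)).natAbs F → Formula F M (-1 * (n : ℤ)).natAbs := by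
      intro n hn hD F _ _ hF
      have e1 : (-1 * (n : ℤ)).natAbs = n := by omega
      rw [e1] at hF ⊢
      rw [snoc_eq] at hD
      have e : (fun _ : Fin 1 => (-1 * (n : ℤ))) = fun _ => (-(n : ℤ)) := by
        funext _
        ring
      rw [e] at hD
      have hn0 : 0 < n := by
        rcases Nat.eq_zero_or_pos n with h | h
        · exfalso
          rw [h] at hn
          exact adm_zero (by simpa using hn)
        · exact h
      exact formula_of hn0 hD hF
    have j3 : count (-1) β P N (fun D => GoodPair M (Fin.snoc (Fin.elim0 : Fin 0 → ℤ) D : Fin 1 → ℤ)) ≤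
        count (-1) β P N (fun D => ∀ (F : Type) [Field F] [NumberField F], IsField D.natAbs F → Formula F M D.natAbs) := by
      classical
      unfold count
      refine card_le_card fun n hn => ?_
      rw [mem_filter] at hn ⊢
      exact ⟨hn.1, hn.2.1, key _ hn.2.1 hn.2.2⟩
    have j4 : (count (-1) β P N (fun D => GoodPair M (Fin.snoc (Fin.elim0 : Fin 0 → ℤ) D : Fin 1 → ℤ)) : ℝ) ≤
        count (-1) β P N (fun D => ∀ (F : Type) [Field F] [NumberField F], IsField D.natAbs F → Formula F M D.natAbs) := by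
      exact_mod_cast j3
    have j5 := (abs_le.1 j1).1
    linarith

end Pool.Agent.Results.MP_7c08ba_nt.FormulaRealMultiples
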