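import Pool.Agent.Q274.XF.Form

/-!
# The Bloch–Kato formula for the base changes to imaginary quadratic fields of the twists of `X_0(14)`

`E_D : y² = x³ + 5805 D² x - 285714 D³` is the twist by `D` of the non-CM curve `E_1 = X_0(14)`. The
class `Adm` consists of the discriminants `D` of any sign which are squarefree, `≡ 1 mod 4`, prime to
`42`, squares modulo `7`, and whose prime factors split completely in `ℚ(i, √2, √-7)` or are inert in
`ℚ(√2)` and in `ℚ(√-7)`; `D` is good if moreover `E_D(ℚ)` is finite and `Ш(E_D/ℚ)[2] = 0`.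

Let `F = ℚ(√-d)` be an imaginary quadratic field and `π_M` the base change to `F` of the newform of
`E_M`: a regular algebraic cuspidal automorphic representation of `GL_2` over `F`, conjugate self-dual
up to the twist of the problem, with `L(s, π_M) = L(E_M/F, s + 1)`, whose `2`-adic realization is
`V_2 E_M` (with coefficients extended).

* If `M` and `-d M` are good up to squares then the formula of the problem holds for `F`, `π_M` and
  `p = 2`: `L(E_M/F, s)` is entire and not zero at `1`, and `H¹_f(F, V_2 E_M) = 0`. (The `L`-function is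
  taken without the Euler factors above `42 M d`; these factors have neither zeros nor poles at `1`.)
* For each fixed `F` of the class, the formula holds for at least the proportion `c ^ 2 = 0.175…` of the
  `π_{M D}`, `D > 0` (or `D < 0`) in the class.
* For each fixed good `M` (for example `M = 1`) the formula holds for `π_M` over `ℚ(√-d)` for at least
  the proportion `c = 0.419…` of the imaginary quadratic fields of the class.

`H1f 2 W` (`Pool.Agent.Y667.BKP.H1f`, by helper667) is the group of the classes of the continuous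
cocycles of the absolute Galois group with values in `V_2 W = T_2 W ⊗ ℚ_2` whose restriction to the
completion at every place is in the image of the Kummer map; this is the condition of Bloch and Kato.

The arithmetic input is the library `Pool/Agent/Y687` of the starting files, see
`Pool/Agent/Q274/XF/Parts.lean`.
-/

set_option autoImplicit false

open NumberField Filter Topology

namespace Pool.Agent.Results.MP_7c08ba_nt.ImaginaryQuadraticTwists

open Pool.Agent.Q274.XF
open Pool.Agent.Y667.BKP (H1f)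

/-- `F = ℚ(√-d)`, an imaginary quadratic field if `d > 0`. -/
def IsField (d : ℕ) (F : Type) [Field F] [NumberField F] : Prop :=
  Module.finrank ℚ F = 2 ∧ ∃ x : F, x ^ 2 = -(d : F)

/-- `D` is good up to squares. -/
def GoodSq (z : ℤ) : Prop := ∃ D k : ℤ, Good D ∧ k ≠ 0 ∧ z = D * k ^ 2

/-- The formula for `π_M` over `F = ℚ(√-d)` and `p = 2`, with both sides zero: `E_M` is an elliptic
curve, its `L`-function (without the Euler factors above `42 M d`) extends to an entire function which
is not zero at `1`, and `H¹_f(F, V_2 E_M)` is zero. -/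
def Formula (F : Type) [Field F] [NumberField F] (M : ℤ) (d : ℕ) : Prop :=
  (EK F M).IsElliptic ∧ (∃ L : ℂ → ℂ, IsL F M (-d) L) ∧ (∀ L : ℂ → ℂ, IsL F M (-d) L → L 1 ≠ 0) ∧
    ∀ x : H1f 2 (EK F M), x = 0

lemma multi {d : ℕ} (hd : 0 < d) {F : Type} [Field F] [NumberField F] (h : IsField d F) :
    IsMultiquadratic (fun _ : Fin 1 => (-d : ℤ)) F := by
  obtain ⟨h1, x, hx⟩ := h
  refine ⟨fun _ => x, fun _ => by rw [hx]; push_cast; ring, ?_⟩
  have hmem : x ∈ IntermediateField.adjoin ℚ (Set.range fun _ : Fin 1 => x) :=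
    IntermediateField.subset_adjoin _ _ ⟨0, rfl⟩
  set L := IntermediateField.adjoin ℚ (Set.range fun _ : Fin 1 => x) with hL
  have hne : Module.finrank ℚ L ≠ 1 := by
    intro h2
    rw [IntermediateField.finrank_eq_one_iff] at h2
    rw [h2, IntermediateField.mem_bot] at hmem
    obtain ⟨q, hq⟩ := hmem
    have h3 : algebraMap ℚ F (q ^ 2) = algebraMap ℚ F (-(d : ℚ)) := by
      rw [map_pow, hq, hx]
      simp
    have h4 := (algebraMap ℚ F).injective h3
    have h5 : (0 : ℚ) ≤ q ^ 2 := sq_nonneg q
    have h6 : (0 : ℚ) < d := by exact_mod_cast hd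
    linarith
  have hmul := Module.finrank_mul_finrank ℚ L F
  rw [h1] at hmul
  have hdvd : Module.finrank ℚ L ∣ 2 := ⟨_, hmul.symm⟩
  have h2 : Module.finrank ℚ L = 2 := by
    rcases (Nat.dvd_prime Nat.prime_two).1 hdvd with h | h
    · exact absurd h hne
    · exact h
  rw [h2] at hmul
  have h3 : Module.finrank L F = 1 := by omega
  exact IntermediateField.finrank_eq_one_iff_eq_top.1 h3

lemma fin1 (T : Finset (Fin 1)) : T = ∅ ∨ T = {0} := by
  revert T
  decide

lemma pair_of {M : ℤ} {d : ℕ} (hd : 0 < d) (h1 : GoodSq M) (h2 : GoodSq (-d * M)) :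
    GoodPair M (fun _ : Fin 1 => (-d : ℤ)) := by
  refine ⟨fun T hT => ?_, fun T => ?_⟩
  · rcases fin1 T with rfl | rfl
    · exact absurd hT (by simp)
    · rw [Finset.prod_singleton]
      rintro ⟨r, hr⟩
      have : 0 ≤ r * r := mul_self_nonneg r
      omega
  · rcases fin1 T with rfl | rfl
    · obtain ⟨D, k, a, b, c⟩ := h1
      exact ⟨D, k, a, b, by rw [Finset.prod_empty, mul_one, c]⟩
    · obtain ⟨D, k, a, b, c⟩ := h2
      exact ⟨D, k, a, b, by rw [Finset.prod_singleton, ← c]; ring⟩

lemma formula_of {M : ℤ} {d : ℕ} (hd : 0 < d) (h : GoodPair M (fun _ : Fin 1 => (-d : ℤ)))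
    {F : Type} [Field F] [NumberField F] (hF : IsField d F) : Formula F M d := by
  obtain ⟨-, -, a2, a3, a4, a5⟩ := parts.1 1 M _ h F (multi hd hF)
  rw [Fin.prod_univ_one] at a4 a5
  exact ⟨isElliptic (ne_zero h), a4, a5, Pool.Agent.Y667.BKP.h1f_zero Nat.prime_two a3 1 a2⟩

lemma snoc_eq (z : ℤ) : (Fin.snoc (Fin.elim0 : Fin 0 → ℤ) z : Fin 1 → ℤ) = fun _ => z := by
  funext i
  have h : i = Fin.last 0 := Subsingleton.elim (α := Fin 1) i _
  rw [h, Fin.snoc_last]

lemma pair_zero {M : ℤ} (h : GoodSq M) : GoodPair M (Fin.elim0 : Fin 0 → ℤ) := by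
  refine ⟨fun T hT => ?_, fun T => ?_⟩
  · obtain ⟨i, -⟩ := hT
    exact i.elim0
  · obtain ⟨D, k, a, b, c⟩ := h
    refine ⟨D, k, a, b, ?_⟩
    rw [Subsingleton.elim T ∅, Finset.prod_empty, mul_one, c]

/-- **The Bloch–Kato formula over imaginary quadratic fields.** -/
theorem result :
    (∀ (M : ℤ) (d : ℕ), 0 < d → GoodSq M → GoodSq (-d * M) →
      ∀ (F : Type) [Field F] [NumberField F], IsField d F → Formula F M d) ∧
    (∀ (M : ℤ) (d : ℕ), 0 < d → AdmSq (-d) → AdmSq M →
      ∀ (F : Type) [Field F] [NumberField F], IsField d F → ∀ ε : ℤ, (ε = 1 ∨ ε = -1) →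
      ∀ δ : ℝ, 0 < δ → ∃ X₀ : ℕ, ∀ X : ℕ, X₀ ≤ X →
        c ^ 2 - δ ≤ prop ε (fun D => Formula F (M * (ε * D)) d) X) ∧
    (∀ M : ℤ, GoodSq M → ∀ δ : ℝ, 0 < δ → ∃ X₀ : ℕ, ∀ X : ℕ, X₀ ≤ X →
        c - δ ≤ prop (-1) (fun d =>
          ∀ (F : Type) [Field F] [NumberField F], IsField d F → Formula F M d) X) ∧
    GoodSq 1 ∧ 0.4194 < c ∧ c < 0.4195 := by
  obtain ⟨-, h2, h3, h4, h5⟩ := parts
  refine ⟨fun M d hd hM hdM F _ _ hF => formula_of hd (pair_of hd hM hdM) hF, ?_, ?_,
    ⟨1, 1, good_one, one_ne_zero, by norm_num⟩, h4, h5⟩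
  · intro M d hd had hM F _ _ hF ε hε δ hδ
    have hfam : Fam (fun _ : Fin 1 => (-d : ℤ)) := by
      refine ⟨fun T hT => ?_, fun _ => had⟩
      rcases fin1 T with rfl | rfl
      · exact absurd hT (by simp)
      · rw [Finset.prod_singleton]
        rintro ⟨r, hr⟩
        have : 0 ≤ r * r := mul_self_nonneg r
        omega
    have h6 := h2 1 _ M hfam hM ε hε
    rw [pow_one] at h6
    obtain ⟨X₀, hX⟩ := low h6 δ hδ
    exact ⟨X₀, fun X hX' => (hX X hX').trans (prop_mono (fun D hD => formula_of hd hD hF) X)⟩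
  · intro M hM δ hδ
    have h6 := h3 0 M _ (pair_zero hM) (-1) (Or.inr rfl)
    rw [pow_zero, pow_one] at h6
    obtain ⟨X₀, hX⟩ := low h6 δ hδ
    refine ⟨X₀, fun X hX' => (hX X hX').trans (prop_mono (fun d hd => ?_) X)⟩
    intro F _ _ hF
    rw [snoc_eq] at hd
    have e : (fun _ : Fin 1 => (-1 * (d : ℤ))) = fun _ => (-d : ℤ) := by
      funext _
      ring
    rw [e] at hd
    have hd0 : 0 < d := by
      rcases Nat.eq_zero_or_pos d with h | h
      · exfalso
        subst h
        have := hd.1 {0} (by simp)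
        apply this
        rw [Finset.prod_singleton]
        exact ⟨0, by simp⟩
      · exact h
    exact formula_of hd0 hd hF

end Pool.Agent.Results.MP_7c08ba_nt.ImaginaryQuadraticTwists
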